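import Pool.Agent.V5helper50.SP.Stm
import Pool.Agent.V5helper62.MT.MV

/-!
# Job MV of project SP: the mean value for separated intervals of length `ℓ` in `[X, K X]`

Adaptation of `V5helper62.MT.MV`.
-/

set_option autoImplicit false

open Finset MeasureTheory

namespace Pool.Agent.V5helper82.SP

open Pool.Agent.V5helper51.MT (cube a)
open Pool.Agent.V5helper62.MT
open Pool.Agent.V5helper50.SP

lemma DD_le {k M : ℕ} (hk : 1 ≤ k) (hM : 1 ≤ M) {x y : Fin k → ℕ} (hx : ∀ i, x i ≤ M)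
    (hy : ∀ i, y i ≤ M) : DD x y ≤ k * M ^ k := by
  have h1 : ∀ j : Fin (k - 1), (hh x y j).natAbs ≤ k * M ^ k := by
    intro j
    have h2 : |hh x y j| ≤ k * (M : ℤ) ^ k := by
      calc |hh x y j| ≤
            ∑ i : Fin k, |(x i : ℤ) ^ ((j : ℕ) + 1) - (y i : ℤ) ^ ((j : ℕ) + 1)| :=
            Finset.abs_sum_le_sum_abs _ _
        _ ≤ ∑ i : Fin k, (M : ℤ) ^ k := Finset.sum_le_sum fun i _ => by
            have key : ∀ z : Fin k → ℕ, (∀ i, z i ≤ M) → (0 : ℤ) ≤ (z i : ℤ) ^ ((j : ℕ) + 1) ∧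
                (z i : ℤ) ^ ((j : ℕ) + 1) ≤ (M : ℤ) ^ k := by
              intro z hz
              refine ⟨by positivity, ?_⟩
              have : z i ^ ((j : ℕ) + 1) ≤ M ^ k := by
                calc z i ^ ((j : ℕ) + 1) ≤ M ^ ((j : ℕ) + 1) := Nat.pow_le_pow_left (hz i) _
                  _ ≤ M ^ k := Nat.pow_le_pow_right hM (by have := j.2; omega)
              exact_mod_cast this
            have kx := key x hx
            have ky := key y hy
            rw [abs_le]
            constructor <;> linarith [kx.1, kx.2, ky.1, ky.2]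
        _ = k * (M : ℤ) ^ k := by simp
    have h5 : ((hh x y j).natAbs : ℤ) ≤ k * (M : ℤ) ^ k := by
      rw [Int.natCast_natAbs]
      exact h2
    exact_mod_cast h5
  unfold DD
  refine max_le ?_ (Finset.sup_le fun j _ => h1 j)
  exact Nat.mul_pos hk (Nat.pow_pos hM)

open scoped Classical in
lemma fixed_y (hPR : Pool.Agent.V5helper51.MT.S_PR) {k q A : ℕ} (hk2 : 2 ≤ k) (hq : 1 ≤ q)
    (hA : 1 ≤ A) {C : ℝ} (T : Finset (Fin k → ℕ))
    (hCNT : ∀ D : ℝ, 1 ≤ D → ∀ c : ℕ → ℝ,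
      ((T.filter fun x : Fin k → ℕ =>
        ∀ j ∈ Icc 1 k, |∑ i, (x i : ℝ) ^ j - c j| ≤ D).card : ℝ) ≤ C * D)
    {y : Fin k → ℕ} {M : ℕ} (hM : ∀ x ∈ T, DD x y ≤ M) :
    ∑ x ∈ T, volume.real (EE k q A x y) ≤
      ((Nat.log 2 M : ℝ) + 1) *
        (2 * C * (q * k * (1 + A)) * ((2 * (A : ℝ)) ^ (k - 1) * (2 * k))) := by
  have hA' : (1 : ℝ) ≤ A := by exact_mod_cast hA
  have hk' : (2 : ℝ) ≤ k := by exact_mod_cast hk2
  have hq' : (1 : ℝ) ≤ q := by exact_mod_cast hq
  set C₁ : ℝ := q * k * (1 + A) with hC₁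
  have hC₁1 : 1 ≤ C₁ := by
    have h1 : (1 : ℝ) ≤ q * k := by nlinarith
    nlinarith
  set C₂ : ℝ := (2 * (A : ℝ)) ^ (k - 1) * (2 * k) with hC₂
  have hC₂0 : 0 ≤ C₂ := by positivity
  set N := Nat.log 2 M with hN
  have hmaps : ∀ x ∈ T, Nat.log 2 (DD x y) ∈ range (N + 1) := by
    intro x hx
    rw [Finset.mem_range, Nat.lt_succ_iff]
    exact Nat.log_mono_right (hM x hx)
  rw [← Finset.sum_fiberwise_of_maps_to hmaps]
  have hmain : ∀ i ∈ range (N + 1),
      ∑ x ∈ T with Nat.log 2 (DD x y) = i, volume.real (EE k q A x y) ≤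
        2 * C * C₁ * C₂ := by
    intro i _
    set cond : (Fin k → ℕ) → Prop := fun x =>
      ∀ j ∈ Icc 1 k, |∑ l, (x l : ℝ) ^ j - (fun j => ∑ l, (y l : ℝ) ^ j) j| ≤
        C₁ * 2 ^ (i + 1) with hcond
    have hpt : ∀ x ∈ T.filter (fun x => Nat.log 2 (DD x y) = i),
        volume.real (EE k q A x y) ≤ if cond x then C₂ / 2 ^ i else 0 := by
      intro x hx
      rw [Finset.mem_filter] at hx
      have hD1 : (2 : ℝ) ^ i ≤ DD x y := by
        have := Nat.pow_log_le_self 2 (x := DD x y) (by have := one_le_DD x y; omega)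
        rw [hx.2] at this
        exact_mod_cast this
      have hD2 : (DD x y : ℝ) ≤ 2 ^ (i + 1) := by
        have := Nat.lt_pow_succ_log_self (b := 2) (by norm_num) (DD x y)
        rw [hx.2] at this
        exact_mod_cast this.le
      split_ifs with hc
      · refine (vol_le hPR hk2 hq hA x y).trans ?_
        exact div_le_div_of_nonneg_left hC₂0 (by positivity) hD1
      · have hemp : EE k q A x y = ∅ := by
          by_contra hne
          apply hc
          have hne' : (EE k q A x y).Nonempty := Set.nonempty_iff_ne_empty.2 hne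
          intro j hj
          rw [Finset.mem_Icc] at hj
          show |∑ l, (x l : ℝ) ^ j - ∑ l, (y l : ℝ) ^ j| ≤ C₁ * 2 ^ (i + 1)
          rcases eq_or_lt_of_le hj.2 with h | h
          · have h1 := ht_le hq x y hne'
            have h2 : (ht x y : ℝ) = ∑ l, (x l : ℝ) ^ k - ∑ l, (y l : ℝ) ^ k := by
              simp only [ht]
              push_cast
              rw [Finset.sum_sub_distrib]
            rw [h, ← h2]
            exact h1.trans (mul_le_mul_of_nonneg_left hD2 (by linarith))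
          · have h1 := hh_le_DD x y ⟨j - 1, by omega⟩
            have h2 : (hh x y ⟨j - 1, by omega⟩ : ℝ) =
                ∑ l, (x l : ℝ) ^ j - ∑ l, (y l : ℝ) ^ j := by
              simp only [hh]
              push_cast
              rw [Finset.sum_sub_distrib, Nat.sub_add_cancel hj.1]
            rw [← h2]
            calc _ ≤ (DD x y : ℝ) := h1
              _ ≤ 2 ^ (i + 1) := hD2
              _ ≤ C₁ * 2 ^ (i + 1) := le_mul_of_one_le_left (by positivity) hC₁1
        rw [hemp]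
        simp
    have hcard : ((T.filter cond).card : ℝ) ≤ C * (C₁ * 2 ^ (i + 1)) := by
      have h1 : (1 : ℝ) ≤ C₁ * 2 ^ (i + 1) := by
        have : (1 : ℝ) ≤ 2 ^ (i + 1) := one_le_pow₀ (by norm_num)
        nlinarith
      have h2 := hCNT (C₁ * 2 ^ (i + 1)) h1 (fun j => ∑ l, (y l : ℝ) ^ j)
      convert h2 using 3
      ext z
      simp only [Finset.mem_filter, hcond]
    calc ∑ x ∈ T with Nat.log 2 (DD x y) = i, volume.real (EE k q A x y) ≤
          ∑ x ∈ T with Nat.log 2 (DD x y) = i, (if cond x then C₂ / 2 ^ i else 0) :=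
          Finset.sum_le_sum hpt
      _ ≤ ∑ x ∈ T, (if cond x then C₂ / 2 ^ i else 0) :=
          Finset.sum_le_sum_of_subset_of_nonneg (Finset.filter_subset _ _)
            (fun x _ _ => by split_ifs <;> positivity)
      _ = ((T.filter cond).card : ℝ) * (C₂ / 2 ^ i) := by
          rw [← Finset.sum_filter, Finset.sum_const, nsmul_eq_mul]
      _ ≤ (C * (C₁ * 2 ^ (i + 1))) * (C₂ / 2 ^ i) :=
          mul_le_mul_of_nonneg_right hcard (by positivity)
      _ = 2 * C * C₁ * C₂ := by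
          rw [pow_succ]
          field_simp
  calc _ ≤ ∑ i ∈ range (N + 1), (2 * C * C₁ * C₂) := Finset.sum_le_sum hmain
    _ = ((N : ℝ) + 1) * (2 * C * C₁ * C₂) := by simp

open scoped Classical in
theorem t_MV (hCNT : S_CNT) (hPR : Pool.Agent.V5helper51.MT.S_PR) : S_MV := by
  intro k q A K hk2 hq hA
  obtain ⟨C, hC, hcnt⟩ := hCNT k K (by omega)
  have hA' : (1 : ℝ) ≤ A := by exact_mod_cast hA
  have hk' : (2 : ℝ) ≤ k := by exact_mod_cast hk2
  have hq' : (1 : ℝ) ≤ q := by exact_mod_cast hq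
  set B : ℝ := 2 * (q * k * (1 + A)) * ((2 * (A : ℝ)) ^ (k - 1) * (2 * k)) with hB
  have hBpos : 0 < B := by positivity
  have hlog2 : 0 < Real.log 2 := Real.log_pos (by norm_num)
  refine ⟨(1 + (2 * k + k * K) / Real.log 2) * (C * B), by positivity, ?_⟩
  intro X ℓ hℓ hℓX b hb1 hb2
  have hX1 : 1 ≤ X := hℓ.trans hℓX
  have hX' : (1 : ℝ) ≤ X := by exact_mod_cast hX1
  have hℓ' : (1 : ℝ) ≤ ℓ := by exact_mod_cast hℓ
  have hKX : 1 ≤ K * X := by
    have h1 := hb2 ⟨0, by omega⟩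
    omega
  have hK1 : 1 ≤ K := by
    by_contra hcon
    have : K = 0 := by omega
    rw [this] at hKX
    omega
  have hK' : (1 : ℝ) ≤ K := by exact_mod_cast hK1
  have hlogX : 0 ≤ Real.log X := Real.log_nonneg hX'
  set T : Finset (Fin k → ℕ) := Fintype.piFinset fun i => Ico (b i) (b i + ℓ) with hT
  have hTle : ∀ x ∈ T, ∀ i, x i ≤ K * X := by
    intro x hx i
    have h1 := Finset.mem_Ico.1 (Fintype.mem_piFinset.1 hx i)
    have h2 := (hb2 i).2
    omega
  have hcT : ∀ D : ℝ, 1 ≤ D → ∀ c : ℕ → ℝ,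
      ((T.filter fun x : Fin k → ℕ =>
        ∀ j ∈ Icc 1 k, |∑ i, (x i : ℝ) ^ j - c j| ≤ D).card : ℝ) ≤
        (C * ((X : ℝ) / ℓ) ^ (k - 1)) * D := by
    intro D hD c
    have h1 := hcnt X ℓ hℓ hℓX b hb1 hb2 D hD c
    have h2 : (T.filter fun x : Fin k → ℕ =>
        ∀ j ∈ Icc 1 k, |∑ i, (x i : ℝ) ^ j - c j| ≤ D).card ≤
        ((Fintype.piFinset fun i : Fin k => Icc (b i) (b i + ℓ)).filter fun x : Fin k → ℕ =>
          ∀ j ∈ Icc 1 k, |∑ i, (x i : ℝ) ^ j - c j| ≤ D).card := by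
      refine Finset.card_le_card fun x hx => ?_
      simp only [Finset.mem_filter] at hx ⊢
      refine ⟨?_, hx.2⟩
      rw [Fintype.mem_piFinset]
      intro i
      have h3 := Finset.mem_Ico.1 (Fintype.mem_piFinset.1 hx.1 i)
      exact Finset.mem_Icc.2 ⟨h3.1, h3.2.le⟩
    calc ((T.filter fun x : Fin k → ℕ =>
        ∀ j ∈ Icc 1 k, |∑ i, (x i : ℝ) ^ j - c j| ≤ D).card : ℝ) ≤ _ := by exact_mod_cast h2
      _ ≤ C * D * ((X : ℝ) / ℓ) ^ (k - 1) := h1
      _ = _ := by ring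
  have hN : (Nat.log 2 (k * (K * X) ^ k) : ℝ) + 1 ≤
      (1 + (2 * k + k * K) / Real.log 2) * (1 + Real.log X) := by
    have h0 : k * (K * X) ^ k ≠ 0 := by positivity
    have h1 : 2 ^ (Nat.log 2 (k * (K * X) ^ k)) ≤ k * (K * X) ^ k := Nat.pow_log_le_self 2 h0
    have h2 : ((2 : ℝ)) ^ (Nat.log 2 (k * (K * X) ^ k)) ≤ (k : ℝ) * ((K : ℝ) * X) ^ k := by
      exact_mod_cast h1
    have h3 := Real.log_le_log (by positivity) h2
    rw [Real.log_pow, Real.log_mul (by positivity) (by positivity), Real.log_pow,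
      Real.log_mul (by positivity) (by positivity)] at h3
    have h4 : Real.log k ≤ k := (Real.log_le_sub_one_of_pos (by linarith)).trans (by linarith)
    have h5 : Real.log K ≤ K := (Real.log_le_sub_one_of_pos (by linarith)).trans (by linarith)
    have h6 : (Nat.log 2 (k * (K * X) ^ k) : ℝ) ≤
        (k + k * (K + Real.log X)) / Real.log 2 := by
      rw [le_div_iff₀ hlog2]
      have h7 : (k : ℝ) * (Real.log K + Real.log X) ≤ k * (K + Real.log X) :=
        mul_le_mul_of_nonneg_left (by linarith) (by linarith)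
      linarith
    have h8 : (k + k * (K + Real.log X)) / Real.log 2 ≤
        (2 * k + k * K) / Real.log 2 * (1 + Real.log X) := by
      rw [div_mul_eq_mul_div]
      refine div_le_div_of_nonneg_right ?_ hlog2.le
      have h9 : 0 ≤ (k : ℝ) * Real.log X := by positivity
      have h10 : 0 ≤ (k : ℝ) * K * Real.log X := by positivity
      nlinarith
    calc (Nat.log 2 (k * (K * X) ^ k) : ℝ) + 1 ≤
          (2 * k + k * K) / Real.log 2 * (1 + Real.log X) + 1 := by linarith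
      _ ≤ (2 * k + k * K) / Real.log 2 * (1 + Real.log X) + 1 * (1 + Real.log X) := by linarith
      _ = _ := by ring
  have hcardT : (T.card : ℝ) = (ℓ : ℝ) ^ k := by
    rw [hT, Fintype.card_piFinset]
    simp
  show ∑ x ∈ T, ∑ y ∈ T, volume.real {α : Fin (k - 1) → ℝ |
    α ∈ cube k A ∧ ∑ i, a k q α (x i) = ∑ i, a k q α (y i)} ≤ _
  rw [Finset.sum_comm]
  calc ∑ y ∈ T, ∑ x ∈ T, volume.real {α : Fin (k - 1) → ℝ | α ∈ cube k A ∧
          ∑ i, a k q α (x i) = ∑ i, a k q α (y i)} ≤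
        ∑ y ∈ T, ((Nat.log 2 (k * (K * X) ^ k) : ℝ) + 1) *
          (2 * (C * ((X : ℝ) / ℓ) ^ (k - 1)) * (q * k * (1 + A)) *
            ((2 * (A : ℝ)) ^ (k - 1) * (2 * k))) :=
        Finset.sum_le_sum fun y hy => fixed_y hPR hk2 hq hA T hcT
          (fun x hx => DD_le (by omega) hKX (hTle x hx) (hTle y hy))
    _ = (ℓ : ℝ) ^ k * (((Nat.log 2 (k * (K * X) ^ k) : ℝ) + 1) *
          ((C * B) * ((X : ℝ) / ℓ) ^ (k - 1))) := by
        rw [Finset.sum_const, nsmul_eq_mul, hcardT, hB]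
        ring
    _ ≤ (ℓ : ℝ) ^ k * (((1 + (2 * k + k * K) / Real.log 2) * (1 + Real.log X)) *
          ((C * B) * ((X : ℝ) / ℓ) ^ (k - 1))) := by
        refine mul_le_mul_of_nonneg_left ?_ (by positivity)
        exact mul_le_mul_of_nonneg_right hN (by positivity)
    _ = (1 + (2 * k + k * K) / Real.log 2) * (C * B) * ℓ * (X : ℝ) ^ (k - 1) *
          (1 + Real.log X) := by
        have h1 : (ℓ : ℝ) ^ k * ((X : ℝ) / ℓ) ^ (k - 1) = ℓ * (X : ℝ) ^ (k - 1) := by
          obtain ⟨m, rfl⟩ : ∃ m, k = m + 1 := ⟨k - 1, by omega⟩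
          rw [Nat.add_sub_cancel, div_pow, pow_succ]
          field_simp
        calc _ = (1 + (2 * k + k * K) / Real.log 2) * (C * B) *
              ((ℓ : ℝ) ^ k * ((X : ℝ) / ℓ) ^ (k - 1)) * (1 + Real.log X) := by ring
          _ = _ := by rw [h1]; ring

end Pool.Agent.V5helper82.SP
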